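import Pool.Agent.W2helper3.BQ.Stm3

set_option autoImplicit false

open MeasureTheory Set Filter Topology
open scoped SchwartzMap ENNReal ContDiff BigOperators

namespace Pool.Agent.W2helper82.BQ3

open Pool.Agent.W2helper3.BQ

theorem choose_le (n l i : ℕ) (hi : i < n) :
    ((l + n + i).choose n : ℝ) ≤ (2 * (n : ℝ)) ^ n * ((l : ℝ) + 1) ^ n := by
  have h1 : (l + n + i).choose n ≤ (l + n + i) ^ n := Nat.choose_le_pow _ _
  have h2 : l + n + i ≤ (2 * n) * (l + 1) := by nlinarith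
  have h3 : (l + n + i).choose n ≤ ((2 * n) * (l + 1)) ^ n :=
    h1.trans (Nat.pow_le_pow_left h2 n)
  have h4 : (((l + n + i).choose n : ℕ) : ℝ) ≤ ((((2 * n) * (l + 1)) ^ n : ℕ) : ℝ) := by
    exact_mod_cast h3
  refine h4.trans (le_of_eq ?_)
  push_cast
  rw [mul_pow]

theorem p_KAP : P_KAP := by
  intro n hn
  set S : ℝ := ∑ i ∈ Finset.range n, ((n - 1).choose i : ℝ) * (2 * (n : ℝ)) ^ n with hS
  have hS0 : 0 ≤ S := Finset.sum_nonneg fun i _ => by positivity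
  refine ⟨1 + S, by linarith, ?_⟩
  intro l v hv
  have h1 : |kap n l v| ≤ ∑ i ∈ Finset.range n,
      ((n - 1).choose i : ℝ) * ((2 * (n : ℝ)) ^ n * ((l : ℝ) + 1) ^ n) *
        Real.exp (-((l : ℝ) / 2 * v)) := by
    unfold kap
    refine (Finset.abs_sum_le_sum_abs _ _).trans (Finset.sum_le_sum fun i hi => ?_)
    have hi' : i < n := Finset.mem_range.mp hi
    rw [abs_mul, abs_mul, abs_mul, abs_pow, abs_neg, abs_one, one_pow, one_mul,
      abs_of_nonneg (Nat.cast_nonneg _), abs_of_nonneg (Nat.cast_nonneg _),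
      abs_of_pos (Real.exp_pos _)]
    have h2 := choose_le n l i hi'
    have h3 : Real.exp (-(((l : ℝ) / 2 + i) * v)) ≤ Real.exp (-((l : ℝ) / 2 * v)) := by
      apply Real.exp_le_exp.mpr
      have : 0 ≤ (i : ℝ) * v := by positivity
      nlinarith
    have h4 : (0 : ℝ) ≤ ((n - 1).choose i : ℝ) := Nat.cast_nonneg _
    have h5 : (0 : ℝ) ≤ ((l + n + i).choose n : ℝ) := Nat.cast_nonneg _
    gcongr
  refine h1.trans ?_
  have h2 : ∑ i ∈ Finset.range n,
      ((n - 1).choose i : ℝ) * ((2 * (n : ℝ)) ^ n * ((l : ℝ) + 1) ^ n) *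
        Real.exp (-((l : ℝ) / 2 * v)) = S * ((l : ℝ) + 1) ^ n * Real.exp (-((l : ℝ) / 2 * v)) := by
    rw [hS, Finset.sum_mul, Finset.sum_mul]
    refine Finset.sum_congr rfl fun i _ => by ring
  rw [h2]
  have h3 : 0 ≤ ((l : ℝ) + 1) ^ n * Real.exp (-((l : ℝ) / 2 * v)) := by positivity
  nlinarith

/-- summability of `(l+2)^n e^(-l)` -/
theorem summ (n : ℕ) : Summable fun l : ℕ => ((l : ℝ) + 2) ^ n * Real.exp (-(l : ℝ)) := by
  have hr : ‖Real.exp (-1)‖ < 1 := by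
    rw [Real.norm_eq_abs, abs_of_pos (Real.exp_pos _)]
    exact Real.exp_lt_one_iff.mpr (by norm_num)
  have h1 := summable_pow_mul_geometric_of_norm_lt_one n hr
  have h2 := (summable_nat_add_iff 2).mpr h1
  have h3 := h2.mul_left (Real.exp 2)
  refine h3.congr fun l => ?_
  have h4 : Real.exp (-1) ^ (l + 2) = Real.exp (-2) * Real.exp (-(l : ℝ)) := by
    rw [← Real.exp_nat_mul, ← Real.exp_add]
    congr 1
    push_cast
    ring
  rw [h4]
  push_cast
  have h5 : Real.exp 2 * Real.exp (-2) = 1 := by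
    rw [← Real.exp_add]; simp
  calc Real.exp 2 * (((l : ℝ) + 2) ^ n * (Real.exp (-2) * Real.exp (-(l : ℝ))))
      = (Real.exp 2 * Real.exp (-2)) * (((l : ℝ) + 2) ^ n * Real.exp (-(l : ℝ))) := by ring
    _ = ((l : ℝ) + 2) ^ n * Real.exp (-(l : ℝ)) := by rw [h5, one_mul]

theorem norm_one_sub_le (z : ℂ) (hz : ‖z‖ < 1) : ‖1 - z‖ ≤ 2 := by
  have := norm_sub_le (1 : ℂ) z
  rw [norm_one] at this
  linarith

theorem norm_one_sub_pos (z : ℂ) (hz : ‖z‖ < 1) : 0 < ‖1 - z‖ := by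
  rw [norm_pos_iff, sub_ne_zero]
  rintro rfl
  simp at hz

/-- the closed form of the kernel -/
theorem closed (n : ℕ) (hn : 1 ≤ n) (z : ℂ) (hz : ‖z‖ < 1) :
    ∑' l : ℕ, ∑ i ∈ Finset.range n, ((-1) ^ i * ((n - 1).choose i : ℂ) * (starRingEnd ℂ z) ^ i) *
        (((l + 1 + i + n).choose n : ℂ) * z ^ (l + 1 + i)) =
      (1 - starRingEnd ℂ z) ^ (n - 1) / (1 - z) ^ (n + 1) -
        ∑ i ∈ Finset.range n, ((-1) ^ i * ((n - 1).choose i : ℂ) * (starRingEnd ℂ z) ^ i) *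
          ∑ m ∈ Finset.range (i + 1), ((m + n).choose n : ℂ) * z ^ m := by
  have h0 : ∀ i : ℕ, HasSum (fun l : ℕ => ((l + 1 + i + n).choose n : ℂ) * z ^ (l + 1 + i))
      (1 / (1 - z) ^ (n + 1) - ∑ m ∈ Finset.range (i + 1), ((m + n).choose n : ℂ) * z ^ m) := by
    intro i
    have h1 := hasSum_choose_mul_geometric_of_norm_lt_one n hz
    have h2 := (hasSum_nat_add_iff' (i + 1)).mpr h1
    have h3 : (fun l : ℕ => ((l + 1 + i + n).choose n : ℂ) * z ^ (l + 1 + i)) =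
        fun l : ℕ => ((l + (i + 1) + n).choose n : ℂ) * z ^ (l + (i + 1)) := by
      funext l
      have : l + (i + 1) = l + 1 + i := by ring
      rw [this]
    rw [h3]
    exact h2
  have h1 : HasSum (fun l : ℕ => ∑ i ∈ Finset.range n,
      ((-1) ^ i * ((n - 1).choose i : ℂ) * (starRingEnd ℂ z) ^ i) *
        (((l + 1 + i + n).choose n : ℂ) * z ^ (l + 1 + i)))
      (∑ i ∈ Finset.range n, ((-1) ^ i * ((n - 1).choose i : ℂ) * (starRingEnd ℂ z) ^ i) *
        (1 / (1 - z) ^ (n + 1) -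
          ∑ m ∈ Finset.range (i + 1), ((m + n).choose n : ℂ) * z ^ m)) :=
    hasSum_sum fun i _ => (h0 i).mul_left _
  rw [h1.tsum_eq]
  simp only [mul_sub, Finset.sum_sub_distrib]
  congr 1
  rw [← Finset.sum_mul, mul_one_div]
  congr 1
  have h2 : (1 - starRingEnd ℂ z) ^ (n - 1) =
      ∑ i ∈ Finset.range (n - 1 + 1), (-starRingEnd ℂ z) ^ i * (1 : ℂ) ^ (n - 1 - i) *
        ((n - 1).choose i : ℂ) := by
    rw [← add_pow]
    congr 1
    ring
  rw [h2, Nat.sub_add_cancel hn]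
  refine Finset.sum_congr rfl fun i _ => ?_
  rw [one_pow, mul_one, neg_pow]
  ring

theorem term_eq (n l : ℕ) (v τ : ℝ) :
    ((kap n (l + 1) v : ℝ) : ℂ) * Complex.exp (((l + 1 : ℕ) : ℂ) * τ * Complex.I) =
      ∑ i ∈ Finset.range n, ((-1) ^ i * ((n - 1).choose i : ℂ) *
        (starRingEnd ℂ (Complex.exp (-(v / 2 : ℝ) + τ * Complex.I))) ^ i) *
        (((l + 1 + i + n).choose n : ℂ) *
          (Complex.exp (-(v / 2 : ℝ) + τ * Complex.I)) ^ (l + 1 + i)) := by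
  unfold kap
  rw [Complex.ofReal_sum, Finset.sum_mul]
  refine Finset.sum_congr rfl fun i _ => ?_
  have hc : starRingEnd ℂ (Complex.exp (-(v / 2 : ℝ) + τ * Complex.I)) =
      Complex.exp (-(v / 2 : ℝ) - τ * Complex.I) := by
    rw [← Complex.exp_conj]
    congr 1
    rw [map_add, map_neg, map_mul, Complex.conj_ofReal, Complex.conj_ofReal, Complex.conj_I]
    ring
  rw [hc]
  have h1 : l + 1 + i + n = l + 1 + n + i := by ring
  rw [h1]
  have h2 : (Complex.exp (-(v / 2 : ℝ) - τ * Complex.I)) ^ i *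
      (Complex.exp (-(v / 2 : ℝ) + τ * Complex.I)) ^ (l + 1 + i) =
      Complex.exp (-((((l : ℂ) + 1) / 2 + i) * v)) *
        Complex.exp (((l + 1 : ℕ) : ℂ) * τ * Complex.I) := by
    rw [← Complex.exp_nat_mul, ← Complex.exp_nat_mul, ← Complex.exp_add, ← Complex.exp_add]
    congr 1
    push_cast
    ring
  push_cast at h2 ⊢
  calc (-1) ^ i * ((n - 1).choose i : ℂ) * ((l + 1 + n + i).choose n : ℂ) *
        Complex.exp (-((((l : ℂ) + 1) / 2 + i) * v)) *
          Complex.exp (((l : ℂ) + 1) * τ * Complex.I)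
      = (-1) ^ i * ((n - 1).choose i : ℂ) * ((l + 1 + n + i).choose n : ℂ) *
        (Complex.exp (-((((l : ℂ) + 1) / 2 + i) * v)) *
          Complex.exp (((l : ℂ) + 1) * τ * Complex.I)) := by ring
    _ = _ := by rw [← h2]; ring

theorem norm_z (v τ : ℝ) :
    ‖Complex.exp (-(v / 2 : ℝ) + τ * Complex.I)‖ = Real.exp (-(v / 2)) := by
  rw [Complex.norm_exp]
  congr 1
  simp

theorem p_KB : P_KB := by
  intro hKAP n hn
  obtain ⟨C₀, hC₀, hkap⟩ := hKAP n hn
  set D : ℝ := ∑ i ∈ Finset.range n, ((n - 1).choose i : ℝ) *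
    ∑ m ∈ Finset.range (i + 1), ((m + n).choose n : ℝ) with hD
  have hD0 : 0 ≤ D := Finset.sum_nonneg fun i _ => by positivity
  set T : ℝ := ∑' l : ℕ, ((l : ℝ) + 2) ^ n * Real.exp (-(l : ℝ)) with hT
  have hT0 : 0 ≤ T := tsum_nonneg fun l => by positivity
  have hC₀' : 0 ≤ C₀ := by linarith
  refine ⟨(1 + 4 * D) * Real.exp 1 + 4 * (C₀ * T), ?_, ?_⟩
  · have : (1 : ℝ) ≤ Real.exp 1 := Real.one_le_exp (by norm_num)
    have h2 : 0 ≤ D * Real.exp 1 := by positivity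
    have h3 : 0 ≤ C₀ * T := by positivity
    nlinarith
  intro v τ hv
  set z : ℂ := Complex.exp (-(v / 2 : ℝ) + τ * Complex.I) with hz
  have hzn : ‖z‖ = Real.exp (-(v / 2)) := norm_z v τ
  have hz1 : ‖z‖ < 1 := by
    rw [hzn]; exact Real.exp_lt_one_iff.mpr (by linarith)
  have hp := norm_one_sub_pos z hz1
  have h2 := norm_one_sub_le z hz1
  have hmk : mk v τ = Real.exp (-(v / 2)) / ‖1 - z‖ ^ 2 := rfl
  have hinv : 1 / 4 ≤ 1 / ‖1 - z‖ ^ 2 := by
    apply one_div_le_one_div_of_le (by positivity)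
    nlinarith
  have hsq : 0 < 1 / ‖1 - z‖ ^ 2 := by positivity
  rcases le_total v 2 with hv2 | hv2
  · -- closed form
    have h3 : ∑' l : ℕ, ((kap n (l + 1) v : ℝ) : ℂ) *
        Complex.exp (((l + 1 : ℕ) : ℂ) * τ * Complex.I) =
        (1 - starRingEnd ℂ z) ^ (n - 1) / (1 - z) ^ (n + 1) -
        ∑ i ∈ Finset.range n, ((-1) ^ i * ((n - 1).choose i : ℂ) * (starRingEnd ℂ z) ^ i) *
          ∑ m ∈ Finset.range (i + 1), ((m + n).choose n : ℂ) * z ^ m := by
      rw [← closed n hn z hz1]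
      exact tsum_congr fun l => term_eq n l v τ
    rw [h3]
    have h4 : ‖(1 - starRingEnd ℂ z) ^ (n - 1) / (1 - z) ^ (n + 1)‖ = 1 / ‖1 - z‖ ^ 2 := by
      rw [norm_div, norm_pow, norm_pow]
      have : ‖1 - starRingEnd ℂ z‖ = ‖1 - z‖ := by
        have h := Complex.norm_conj (1 - z)
        rw [map_sub, map_one] at h
        exact h
      rw [this]
      have h5 : n + 1 = (n - 1) + 2 := by omega
      rw [h5, pow_add]
      field_simp
    have h5 : ‖∑ i ∈ Finset.range n, ((-1) ^ i * ((n - 1).choose i : ℂ) *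
        (starRingEnd ℂ z) ^ i) *
          ∑ m ∈ Finset.range (i + 1), ((m + n).choose n : ℂ) * z ^ m‖ ≤ D := by
      refine (norm_sum_le _ _).trans (Finset.sum_le_sum fun i _ => ?_)
      rw [norm_mul, norm_mul, norm_mul, norm_pow, norm_neg, norm_one, one_pow, one_mul,
        norm_pow, Complex.norm_conj, Complex.norm_natCast]
      have h6 : ‖z‖ ^ i ≤ 1 := pow_le_one₀ (norm_nonneg _) hz1.le
      have h7 : ‖∑ m ∈ Finset.range (i + 1), ((m + n).choose n : ℂ) * z ^ m‖ ≤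
          ∑ m ∈ Finset.range (i + 1), ((m + n).choose n : ℝ) := by
        refine (norm_sum_le _ _).trans (Finset.sum_le_sum fun m _ => ?_)
        rw [norm_mul, Complex.norm_natCast, norm_pow]
        have h8 : ‖z‖ ^ m ≤ 1 := pow_le_one₀ (norm_nonneg _) hz1.le
        have h9 : (0 : ℝ) ≤ ((m + n).choose n : ℝ) := Nat.cast_nonneg _
        nlinarith
      have h9 : (0 : ℝ) ≤ ((n - 1).choose i : ℝ) := Nat.cast_nonneg _
      have h10 : ((n - 1).choose i : ℝ) * ‖z‖ ^ i ≤ ((n - 1).choose i : ℝ) := by nlinarith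
      exact mul_le_mul h10 h7 (norm_nonneg _) h9
    have h6 := norm_sub_le ((1 - starRingEnd ℂ z) ^ (n - 1) / (1 - z) ^ (n + 1))
      (∑ i ∈ Finset.range n, ((-1) ^ i * ((n - 1).choose i : ℂ) * (starRingEnd ℂ z) ^ i) *
          ∑ m ∈ Finset.range (i + 1), ((m + n).choose n : ℂ) * z ^ m)
    rw [h4] at h6
    refine (h6.trans (add_le_add_right h5 _)).trans ?_
    have h7 : 1 / ‖1 - z‖ ^ 2 + D ≤ (1 + 4 * D) * (1 / ‖1 - z‖ ^ 2) := by nlinarith
    have h8 : 1 ≤ Real.exp 1 * Real.exp (-(v / 2)) := by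
      rw [← Real.exp_add]; exact Real.one_le_exp (by linarith)
    rw [hmk]
    have h9 : (1 + 4 * D) * (1 / ‖1 - z‖ ^ 2) ≤
        (1 + 4 * D) * (1 / ‖1 - z‖ ^ 2) * (Real.exp 1 * Real.exp (-(v / 2))) := by
      have : 0 ≤ (1 + 4 * D) * (1 / ‖1 - z‖ ^ 2) := by positivity
      nlinarith
    have h10 : (1 + 4 * D) * (1 / ‖1 - z‖ ^ 2) * (Real.exp 1 * Real.exp (-(v / 2))) =
        ((1 + 4 * D) * Real.exp 1) * (Real.exp (-(v / 2)) / ‖1 - z‖ ^ 2) := by ring
    have h11 : 0 ≤ 4 * (C₀ * T) * (Real.exp (-(v / 2)) / ‖1 - z‖ ^ 2) := by positivity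
    rw [add_mul]
    linarith
  · -- large v
    have hbound : ∀ l : ℕ, ‖((kap n (l + 1) v : ℝ) : ℂ) *
        Complex.exp (((l + 1 : ℕ) : ℂ) * τ * Complex.I)‖ ≤
        C₀ * Real.exp (-(v / 2)) * (((l : ℝ) + 2) ^ n * Real.exp (-(l : ℝ))) := by
      intro l
      rw [norm_mul]
      have h3 : ‖Complex.exp (((l + 1 : ℕ) : ℂ) * τ * Complex.I)‖ = 1 := by
        rw [Complex.norm_exp]
        simp
      rw [h3, mul_one, Complex.norm_real, Real.norm_eq_abs]
      have h4 := hkap (l + 1) v hv.le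
      refine h4.trans ?_
      push_cast
      have h5 : Real.exp (-(((l : ℝ) + 1) / 2 * v)) ≤
          Real.exp (-(v / 2)) * Real.exp (-(l : ℝ)) := by
        rw [← Real.exp_add]
        apply Real.exp_le_exp.mpr
        have : (0 : ℝ) ≤ (l : ℝ) := Nat.cast_nonneg _
        nlinarith
      have h6 : ((l : ℝ) + 1 + 1) = (l : ℝ) + 2 := by ring
      rw [h6]
      calc C₀ * ((l : ℝ) + 2) ^ n * Real.exp (-(((l : ℝ) + 1) / 2 * v))
          ≤ C₀ * ((l : ℝ) + 2) ^ n * (Real.exp (-(v / 2)) * Real.exp (-(l : ℝ))) := by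
            gcongr
        _ = _ := by ring
    have hs : Summable fun l : ℕ =>
        C₀ * Real.exp (-(v / 2)) * (((l : ℝ) + 2) ^ n * Real.exp (-(l : ℝ))) :=
      (summ n).mul_left _
    have h3 := tsum_of_norm_bounded hs.hasSum hbound
    rw [tsum_mul_left] at h3
    refine h3.trans ?_
    rw [hmk]
    have h4 : C₀ * Real.exp (-(v / 2)) * T ≤
        4 * (C₀ * T) * (Real.exp (-(v / 2)) / ‖1 - z‖ ^ 2) := by
      have h5 : 0 ≤ C₀ * Real.exp (-(v / 2)) * T := by positivity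
      have h6 : 4 * (C₀ * T) * (Real.exp (-(v / 2)) / ‖1 - z‖ ^ 2) =
          (C₀ * Real.exp (-(v / 2)) * T) * (4 * (1 / ‖1 - z‖ ^ 2)) := by ring
      rw [h6]
      have h7 : 1 ≤ 4 * (1 / ‖1 - z‖ ^ 2) := by linarith
      nlinarith
    have h5 : 0 ≤ (1 + 4 * D) * Real.exp 1 * (Real.exp (-(v / 2)) / ‖1 - z‖ ^ 2) := by positivity
    rw [add_mul]
    linarith

end Pool.Agent.W2helper82.BQ3
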